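import Pool.Agent.Helper1.KA.GeneralB
import Pool.Agent.Helper57.KL.Tr

set_option autoImplicit false

/-!
Project KA (MP_0b9e0b_ag), KA-3: the translations `tr h` of the points of `X`, the sums `SH`
and `SS`, and the Fourier decomposition of the class of a point.  The facts which do not depend on
the curves are in `Helper57.KL.Tr`.
-/

namespace Pool.Agent.Helper57.KA

open Pool.Agent.Helper16 Pool.Agent.Helper1.KA Finset
open Pool.Agent.Helper1.KL (Var VarF Key key fld spec cyc relations rat CH coef Idx)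
open Pool.Agent.Helper1.KL (aff xc yc tr ec red xpt perp Prp ratf Vert Con At0 Quo cls IT RT)
open Pool.Agent.Helper1.KL (key_eq_iff getD_map key_map mem_fld getD_mem_fld fld_eq_range fld_map
  trdeg_fld_map restr restr_map key_restr fld_restr trdeg_fld_restr exists_hom_of_key
  trdeg_eq_of_key charP_ratFunc charP_alg cast_pow_p)
open Pool.Agent.Helper1.KL (map_cast tr_map xc_map yc_map ec_map red_map key_red_map
  key_red_restr fld_xpt_le xc_mem)
open Pool.Agent.Helper57.KL (tr_inl tr_inr xc_tr xpt_tr tr_inr_eq_none yc_tr_of_some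
  yc_tr_of_none yc_of_none mem_aff aff_tr tr_zero tr_tr tr_neg_tr tr_eq_self tr_congr ec_tr ec_tr'
  mem_perp perp_zero perp_smul cast_eq_algebraMap fld_tr_le fld_tr spec_tr key_tr key_tr_iff
  key_red_of_key card_supp card_supp_compl card_perp)

/-! ### Translates of points of `X` -/

section X

variable {k : Type} [Field k] {p : ℕ} {n : ℕ} {a : ℕ} {c : Fin n → k} {r : ℕ}

theorem Xc_tr {N : Type} [Field N] [Algebra (RatFunc k) N] (ρ h : Fin n → ZMod p)
    (z : Fin n ⊕ Fin n → Option N) : Xc a c ρ (tr h z) = Xc a c ρ z := rfl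

theorem Bc_tr {N : Type} [Field N] (ρ h : Fin n → ZMod p)
    (z : Fin n ⊕ Fin n → Option N) : Bc ρ (tr h z) = Bc ρ z := rfl

theorem SH_zero {N : Type} [Field N] [Algebra (RatFunc k) N] (z : Fin n ⊕ Fin n → Option N) :
    SH p a c r {0} z = cl p a c r z := by
  unfold SH
  rw [sum_singleton, tr_zero]

theorem SS_smul [Fact p.Prime] {N : Type} [Field N] [Algebra (RatFunc k) N] {u : ZMod p}
    (hc : u ≠ 0) (ρ : Fin n → ZMod p) (z : Fin n ⊕ Fin n → Option N) :
    SS p a c r (u • ρ) z = SS p a c r ρ z := by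
  unfold SS
  rw [perp_smul hc]

theorem SS_zero [Fact p.Prime] {N : Type} [Field N] [Algebra (RatFunc k) N]
    (z : Fin n ⊕ Fin n → Option N) :
    SS p a c r 0 z = ∑ h : Fin n → ZMod p, cl p a c r (tr h z) := by
  unfold SS SH
  rw [perp_zero]

variable [Fact p.Prime] [CharP k p]

/-- `ec_tr'` for good points -/
theorem Good.ec_tr {N : Type} [Field N] [Algebra (RatFunc k) N] {I : Finset (Fin n)}
    {z : Fin n ⊕ Fin n → Option N} (hz : Good p a c r I z)
    {ρ : Fin n → ZMod p} (hρ : ∀ i ∉ I, ρ i = 0) (h : Fin n → ZMod p) :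
    ec ρ (tr h z) = ec ρ z + ((∑ i, ρ i * h i : ZMod p)).cast := by
  have := charP_alg (k := k) (p := p) N
  refine ec_tr' h fun i hi => hρ i ?_
  rwa [← hz.aff_eq]

section one

variable {N : Type} [Field N] [Algebra (RatFunc k) N]

theorem XV_tr_of (h : Fin n → ZMod p) {z : Fin n ⊕ Fin n → Option N} (hz : XV p a c N z) :
    XV p a c N (tr h z) := by
  have := charP_alg (k := k) (p := p) N
  intro i
  rcases hz i with ⟨h1, h2⟩ | ⟨x, y, h1, h2, h3⟩
  · left
    exact ⟨h1, (tr_inr_eq_none h z i).2 h2⟩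
  · right
    refine ⟨x, y + (h i).cast, h1, by rw [tr_inr, h2]; rfl, ?_⟩
    rw [← h3, add_pow_char (p := p) y, cast_pow_p]
    ring

theorem XV_tr (h : Fin n → ZMod p) {z : Fin n ⊕ Fin n → Option N} :
    XV p a c N (tr h z) ↔ XV p a c N z := by
  have := charP_alg (k := k) (p := p) N
  refine ⟨fun h1 => ?_, XV_tr_of h⟩
  have h2 := XV_tr_of (-h) h1
  rwa [tr_neg_tr] at h2

theorem Good.tr {I : Finset (Fin n)} {z : Fin n ⊕ Fin n → Option N} (hz : Good p a c r I z)
    (h : Fin n → ZMod p) : Good p a c r I (Helper1.KL.tr h z) where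
  mem := XV_tr_of h hz.mem
  aff := fun i hi h0 => hz.aff i hi ((tr_inr_eq_none h z i).1 h0)
  inf := fun i hi => hz.inf i hi
  dim := by rw [fld_tr]; exact hz.dim

/-! ### Sums of classes -/

theorem SH_tr (H : Finset (Fin n → ZMod p)) (h : Fin n → ZMod p)
    (z : Fin n ⊕ Fin n → Option N) :
    SH p a c r H (tr h z) = ∑ g ∈ H, cl p a c r (tr (g + h) z) := by
  have := charP_alg (k := k) (p := p) N
  unfold SH
  exact sum_congr rfl fun g _ => by rw [tr_tr]

theorem SS_tr {ρ h : Fin n → ZMod p} (hh : h ∈ perp ρ) (z : Fin n ⊕ Fin n → Option N) :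
    SS p a c r ρ (tr h z) = SS p a c r ρ z := by
  unfold SS
  rw [SH_tr]
  unfold SH
  rw [mem_perp] at hh
  refine sum_bij' (fun g _ => g + h) (fun g _ => g - h) ?_ ?_ ?_ ?_ ?_
  · intro g hg
    rw [mem_perp] at hg ⊢
    simp only [Pi.add_apply, mul_add, sum_add_distrib, hg, hh, add_zero]
  · intro g hg
    rw [mem_perp] at hg ⊢
    simp only [Pi.sub_apply, mul_sub, sum_sub_distrib, hg, hh, sub_zero]
  · intro g _
    exact add_sub_cancel_right g h
  · intro g _
    exact sub_add_cancel g h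
  · intro g _
    rfl

theorem SS_zero_tr (h : Fin n → ZMod p) (z : Fin n ⊕ Fin n → Option N) :
    SS p a c r 0 (tr h z) = SS p a c r 0 z := by
  apply SS_tr
  rw [perp_zero]
  exact mem_univ _

/-- the translates by two vectors with the same product with `ρ` -/
theorem SS_tr_eq {ρ h h' : Fin n → ZMod p} (hh : ∑ i, ρ i * h i = ∑ i, ρ i * h' i)
    (z : Fin n ⊕ Fin n → Option N) : SS p a c r ρ (tr h z) = SS p a c r ρ (tr h' z) := by
  have := charP_alg (k := k) (p := p) N
  have h1 : tr h z = tr (h - h') (tr h' z) := by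
    rw [tr_tr, sub_add_cancel]
  rw [h1, SS_tr]
  rw [mem_perp]
  simp only [Pi.sub_apply, mul_sub, sum_sub_distrib, hh, sub_self]

theorem sum_SS_tr {ρ h : Fin n → ZMod p} (hh : ∑ i, ρ i * h i = 1)
    (z : Fin n ⊕ Fin n → Option N) :
    ∑ u : ZMod p, SS p a c r ρ (tr (u • h) z) = SS p a c r 0 z := by
  have := charP_alg (k := k) (p := p) N
  have hdot : ∀ (u : ZMod p) (g : Fin n → ZMod p), ∑ i, ρ i * (g + u • h) i =
      (∑ i, ρ i * g i) + u := by
    intro u g
    have e1 : ∀ i, ρ i * (g + u • h) i = ρ i * g i + u * (ρ i * h i) := by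
      intro i
      rw [Pi.add_apply, Pi.smul_apply, smul_eq_mul]
      ring
    rw [sum_congr rfl fun i _ => e1 i, sum_add_distrib, ← mul_sum, hh, mul_one]
  rw [SS_zero]
  have h1 : ∀ u : ZMod p, SS p a c r ρ (tr (u • h) z) =
      ∑ g : Fin n → ZMod p with ∑ i, ρ i * g i = u, cl p a c r (tr g z) := by
    intro u
    unfold SS
    rw [SH_tr]
    refine sum_bij' (fun g _ => g + u • h) (fun g _ => g - u • h) ?_ ?_ ?_ ?_ ?_
    · intro g hg
      rw [mem_perp] at hg
      rw [Finset.mem_filter_univ, hdot, hg, zero_add]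
    · intro g hg
      rw [Finset.mem_filter_univ] at hg
      rw [mem_perp]
      have h2 := hdot u (g - u • h)
      rw [sub_add_cancel, hg] at h2
      exact add_eq_right.1 h2.symm
    · intro g _
      exact add_sub_cancel_right g _
    · intro g _
      exact sub_add_cancel g _
    · intro g _
      rfl
  rw [sum_congr rfl fun u _ => h1 u]
  exact sum_fiberwise univ (fun g : Fin n → ZMod p => ∑ i, ρ i * g i) _

/-- If the reduced points of all translates are the same then `SS ρ z` is a multiple of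
`SS 0 z`. -/
theorem smul_SS_of_key (hS : ModS k p a c r) {z : Fin n ⊕ Fin n → Option N} (hz : XV p a c N z)
    {ρ : Fin n → ZMod p} (hρ : ρ ≠ 0)
    (hk : ∀ h : Fin n → ZMod p, key (RatFunc k) (red ρ z) = key (RatFunc k) (red ρ (tr h z))) :
    (p : ℚ) • SS p a c r ρ z = SS p a c r 0 z := by
  classical
  obtain ⟨i, hi⟩ : ∃ i, ρ i ≠ 0 := by
    by_contra hcon
    push Not at hcon
    exact hρ (funext hcon)
  have h1 : ∑ j, ρ j * (Pi.single i (ρ i)⁻¹ : Fin n → ZMod p) j = 1 := by
    rw [sum_eq_single i]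
    · rw [Pi.single_eq_same, mul_inv_cancel₀ hi]
    · intro j _ hj
      rw [Pi.single_eq_of_ne hj, mul_zero]
    · intro h
      exact absurd (mem_univ i) h
  rw [← sum_SS_tr h1 z]
  have h2 : ∀ u : ZMod p, SS p a c r ρ (tr (u • (Pi.single i (ρ i)⁻¹ : Fin n → ZMod p)) z) =
      SS p a c r ρ z := fun u =>
    ((hS N N z _ ρ hz (XV_tr_of _ hz) (hk _)).1).symm
  rw [sum_congr rfl fun u _ => h2 u, sum_const, card_univ, ZMod.card, ← Nat.cast_smul_eq_nsmul ℚ]

end one

section two

variable {N N' : Type} [Field N] [Field N'] [Algebra (RatFunc k) N] [Algebra (RatFunc k) N']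

theorem SH_eq_of_key {z : Fin n ⊕ Fin n → Option N} {z' : Fin n ⊕ Fin n → Option N'}
    (h : key (RatFunc k) z = key (RatFunc k) z') (H : Finset (Fin n → ZMod p)) :
    SH p a c r H z = SH p a c r H z' := by
  unfold SH
  exact sum_congr rfl fun g _ => cl_eq_of_key (key_tr h g)

theorem SS_eq_of_key {z : Fin n ⊕ Fin n → Option N} {z' : Fin n ⊕ Fin n → Option N'}
    (h : key (RatFunc k) z = key (RatFunc k) z') (ρ : Fin n → ZMod p) :
    SS p a c r ρ z = SS p a c r ρ z' := SH_eq_of_key h _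

end two

/-! ### The Fourier decomposition -/

section fourier

variable {N : Type} [Field N] [Algebra (RatFunc k) N]

omit [CharP k p] in
/-- **The Fourier decomposition.** -/
theorem fourier {z : Fin n ⊕ Fin n → Option N} (hm : 1 ≤ (aff z).card) :
    (∑ ρ : Fin n → ZMod p with ∀ i ∉ aff z, ρ i = 0, SS p a c r ρ z) =
      ((p : ℚ) ^ ((aff z).card - 1)) • SS p a c r 0 z +
        (((p : ℚ) ^ (aff z).card - (p : ℚ) ^ ((aff z).card - 1)) *
          (p : ℚ) ^ (n - (aff z).card)) • cl p a c r z := by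
  classical
  set I := aff z with hI
  have hp : p ≠ 0 := (Fact.out : p.Prime).ne_zero
  have hp0 : (p : ℚ) ≠ 0 := by exact_mod_cast hp
  have h1 : (∑ ρ : Fin n → ZMod p with ∀ i ∉ I, ρ i = 0, SS p a c r ρ z) =
      ∑ h : Fin n → ZMod p,
        ((univ.filter fun ρ : Fin n → ZMod p => (∀ i ∉ I, ρ i = 0) ∧ h ∈ perp ρ).card : ℚ) •
          cl p a c r (tr h z) := by
    have h2 : ∀ ρ : Fin n → ZMod p, SS p a c r ρ z =
        ∑ h : Fin n → ZMod p, if h ∈ perp ρ then cl p a c r (tr h z) else 0 := by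
      intro ρ
      unfold SS SH
      rw [sum_ite_mem, univ_inter]
    rw [sum_congr rfl fun ρ _ => h2 ρ, sum_comm]
    refine sum_congr rfl fun h _ => ?_
    rw [← sum_filter, sum_const, Nat.cast_smul_eq_nsmul ℚ, filter_filter]
  have h3 : ∀ h : Fin n → ZMod p,
      ((univ.filter fun ρ : Fin n → ZMod p => (∀ i ∉ I, ρ i = 0) ∧ h ∈ perp ρ).card : ℚ) •
          cl p a c r (tr h z) =
        ((p : ℚ) ^ (I.card - 1)) • cl p a c r (tr h z) + (if ∀ i ∈ I, h i = 0 then
          ((p : ℚ) ^ I.card - (p : ℚ) ^ (I.card - 1)) • cl p a c r z else 0) := by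
    intro h
    by_cases hh : ∀ i ∈ I, h i = 0
    · rw [if_pos hh, tr_eq_self hh, ← add_smul]
      congr 1
      have h4 : (univ.filter fun ρ : Fin n → ZMod p => (∀ i ∉ I, ρ i = 0) ∧ h ∈ perp ρ) =
          univ.filter fun ρ : Fin n → ZMod p => ∀ i ∉ I, ρ i = 0 := by
        ext ρ
        rw [Finset.mem_filter_univ, Finset.mem_filter_univ]
        refine and_iff_left_of_imp fun hρ => ?_
        rw [mem_perp]
        refine sum_eq_zero fun i _ => ?_
        by_cases hi : i ∈ I
        · rw [hh i hi, mul_zero]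
        · rw [hρ i hi, zero_mul]
      rw [h4, card_supp]
      push_cast
      ring
    · rw [if_neg hh, add_zero]
      congr 1
      push Not at hh
      have h5 := card_perp I hh
      have h6 : (p : ℚ) * ((univ.filter fun ρ : Fin n → ZMod p =>
          (∀ i ∉ I, ρ i = 0) ∧ h ∈ perp ρ).card : ℚ) = (p : ℚ) * (p : ℚ) ^ (I.card - 1) := by
        rw [← pow_succ', Nat.sub_add_cancel hm]
        exact_mod_cast h5
      exact mul_left_cancel₀ hp0 h6
  rw [h1, sum_congr rfl fun h _ => h3 h, sum_add_distrib, ← smul_sum, ← SS_zero]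
  congr 1
  rw [← sum_filter, sum_const, card_supp_compl, ← Nat.cast_smul_eq_nsmul ℚ, smul_smul]
  congr 1
  push_cast
  ring

omit [CharP k p] in
/-- The class of a point is a combination of the sums `SS ρ z`, `ρ` supported on the affine
coordinates. -/
theorem cl_mem_span (z : Fin n ⊕ Fin n → Option N) :
    cl p a c r z ∈ Submodule.span ℚ
      {q | ∃ ρ : Fin n → ZMod p, (∀ i ∉ aff z, ρ i = 0) ∧ q = SS p a c r ρ z} := by
  classical
  have hp0 : (p : ℚ) ≠ 0 := by exact_mod_cast (Fact.out : p.Prime).ne_zero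
  have hp1 : (1 : ℚ) < p := by exact_mod_cast (Fact.out : p.Prime).one_lt
  have hmem : ∀ ρ : Fin n → ZMod p, (∀ i ∉ aff z, ρ i = 0) → SS p a c r ρ z ∈ Submodule.span ℚ
      {q | ∃ ρ : Fin n → ZMod p, (∀ i ∉ aff z, ρ i = 0) ∧ q = SS p a c r ρ z} :=
    fun ρ hρ => Submodule.subset_span ⟨ρ, hρ, rfl⟩
  rcases Nat.eq_zero_or_pos (aff z).card with h0 | h0
  · have h1 : SS p a c r 0 z = ((p : ℚ) ^ n) • cl p a c r z := by
      rw [SS_zero]
      have h2 : ∀ h : Fin n → ZMod p, cl p a c r (tr h z) = cl p a c r z := by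
        intro h
        rw [tr_eq_self]
        intro i hi
        rw [card_eq_zero.1 h0] at hi
        exact absurd hi (notMem_empty i)
      rw [sum_congr rfl fun h _ => h2 h, sum_const, card_univ, Fintype.card_fun, ZMod.card,
        Fintype.card_fin, ← Nat.cast_smul_eq_nsmul ℚ]
      push_cast
      rfl
    have h3 : cl p a c r z = ((p : ℚ) ^ n)⁻¹ • SS p a c r 0 z := by
      rw [h1, smul_smul, inv_mul_cancel₀ (pow_ne_zero _ hp0), one_smul]
    rw [h3]
    exact Submodule.smul_mem _ _ (hmem 0 fun i _ => rfl)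
  · have h1 := fourier (p := p) (a := a) (c := c) (r := r) (z := z) h0
    set w : ℚ := ((p : ℚ) ^ (aff z).card - (p : ℚ) ^ ((aff z).card - 1)) *
          (p : ℚ) ^ (n - (aff z).card) with hw
    have hw0 : w ≠ 0 := by
      apply mul_ne_zero _ (pow_ne_zero _ hp0)
      rw [sub_ne_zero]
      exact (pow_lt_pow_right₀ hp1 (by omega)).ne'
    have h2 : w • cl p a c r z ∈ Submodule.span ℚ
        {q | ∃ ρ : Fin n → ZMod p, (∀ i ∉ aff z, ρ i = 0) ∧ q = SS p a c r ρ z} := by
      have h3 : w • cl p a c r z = (∑ ρ : Fin n → ZMod p with ∀ i ∉ aff z, ρ i = 0,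
          SS p a c r ρ z) - ((p : ℚ) ^ ((aff z).card - 1)) • SS p a c r 0 z := by
        rw [h1]
        abel
      rw [h3]
      refine sub_mem (Submodule.sum_mem _ fun ρ hρ => hmem ρ ((Finset.mem_filter_univ _).1 hρ)) ?_
      exact Submodule.smul_mem _ _ (hmem 0 fun i _ => rfl)
    exact (Submodule.smul_mem_iff _ hw0).1 h2

omit [CharP k p] in
/-- `cl_mem_span` for a good point. -/
theorem Good.cl_mem_span {I : Finset (Fin n)} {z : Fin n ⊕ Fin n → Option N}
    (hz : Good p a c r I z) :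
    cl p a c r z ∈ Submodule.span ℚ
      {q | ∃ ρ : Fin n → ZMod p, (∀ i ∉ I, ρ i = 0) ∧ q = SS p a c r ρ z} := by
  have h1 := Helper57.KA.cl_mem_span (p := p) (a := a) (c := c) (r := r) z
  rwa [hz.aff_eq] at h1

end fourier

end X

end Pool.Agent.Helper57.KA
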